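import Mathlib
import Pool.Agent.TH455.ExBMain
import Pool.Agent.TH455.C4
import Pool.Agent.TH455.PlanarSparse

set_option autoImplicit false

/-!
# List packing and correspondence packing of graphs of arboricity two

The starting result `BipartiteFour` determines the maximum of the list packing number over the
bipartite planar graphs: it is `4`. Here the maximum is determined for every class of graphs between
the bipartite planar graphs and the graphs of arboricity at most two, for the list packing number
and for the correspondence packing number.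
-/

namespace Pool.Agent.Results.MP_e21097_co.ArboricityTwo

open Pool.Agent.TH455
open Pool.Agent.H239R2.Planar (HasStraightLineDrawing)

/-- The edges of `G` are covered by two forests. -/
def TwoForests {V : Type} (G : SimpleGraph V) : Prop :=
  ∃ F₁ F₂ : SimpleGraph V, F₁.IsAcyclic ∧ F₂.IsAcyclic ∧ G ≤ F₁ ⊔ F₂

/-- Every nonempty finite set `W` of vertices spans at most `2 |W| - 2` edges. -/
def SpansFew {V : Type} (G : SimpleGraph V) : Prop :=
  ∀ W : Finset V, W.Nonempty → {e ∈ G.edgeSet | ∀ v ∈ e, v ∈ W}.ncard + 2 ≤ 2 * W.card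

theorem forest_count {V : Type} (F : SimpleGraph V) (hF : F.IsAcyclic) (W : Finset V)
    (hW : W.Nonempty) : I2 (gi F) W + 2 ≤ 2 * W.card := by
  classical
  obtain ⟨w, hw⟩ := hW
  have hne : Nonempty (W : Set V) := ⟨⟨w, hw⟩⟩
  obtain ⟨T, hT1, -, hT2⟩ := SimpleGraph.Connected.exists_isTree_le_of_le_of_isAcyclic
    (G := (⊤ : SimpleGraph (W : Set V))) SimpleGraph.connected_top (H := F.induce (W : Set V))
    le_top (hF.induce _)
  have h2 := T.sum_degrees_eq_twice_card_edges
  have h3 : T.edgeFinset.card + 1 = W.card := by
    have h1 := hT2.card_edgeFinset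
    rw [← Nat.card_eq_fintype_card, Nat.card_coe_set_eq, Set.ncard_coe_finset] at h1
    rw [← h1]
  have h4 : I2 (gi F) W ≤ ∑ v, T.degree v := by
    unfold I2
    have h5 : ∑ a ∈ W, ∑ b ∈ W, gi F a b = ∑ a : (W : Set V), ∑ b : (W : Set V), gi F a b := by
      rw [← Finset.sum_coe_sort W]
      refine Finset.sum_congr rfl fun a _ => ?_
      rw [← Finset.sum_coe_sort W]
      rfl
    rw [h5]
    refine Finset.sum_le_sum fun a _ => ?_
    rw [← SimpleGraph.card_neighborFinset_eq_degree, SimpleGraph.neighborFinset_eq_filter,
      Finset.card_filter]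
    refine Finset.sum_le_sum fun b _ => ?_
    by_cases h : F.Adj a b
    · have h6 : T.Adj a b := hT1 h
      rw [gi_one h, if_pos h6]
    · have h7 : gi F (a : V) b = 0 := ind_neg h
      rw [h7]
      exact Nat.zero_le _
  have e1 : ∀ i : Fintype T.edgeSet, (@SimpleGraph.edgeFinset _ T i).card = Nat.card T.edgeSet := by
    intro i
    rw [Nat.card_eq_fintype_card, SimpleGraph.edgeFinset_card]
  rw [e1] at h2 h3
  omega

theorem sparse_of_forests {V : Type} {G : SimpleGraph V} (h : TwoForests G) : Sparse (gi G) := by
  obtain ⟨F₁, F₂, h1, h2, h3⟩ := h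
  intro W hW
  have h4 := forest_count F₁ h1 W hW
  have h5 := forest_count F₂ h2 W hW
  have h6 : I2 (gi G) W ≤ I2 (gi F₁) W + I2 (gi F₂) W := by
    unfold I2
    rw [← Finset.sum_add_distrib]
    refine Finset.sum_le_sum fun a _ => ?_
    rw [← Finset.sum_add_distrib]
    refine Finset.sum_le_sum fun b _ => ?_
    by_cases h : G.Adj a b
    · rw [gi_one h]
      rcases h3 h with h7 | h7
      · rw [gi_one h7]; omega
      · rw [gi_one h7]; omega
    · have h7 : gi G a b = 0 := ind_neg h
      rw [h7]
      exact Nat.zero_le _
  omega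

theorem set_eq {V : Type} (G : SimpleGraph V) (W : Finset V) :
    {e ∈ G.edgeSet | ∀ v ∈ e, v ∈ W} = (eIn G W : Set (Sym2 V)) := by
  classical
  ext e
  induction e using Sym2.ind with
  | _ a b =>
    simp [eIn, and_comm]

theorem sparse_of_spans {V : Type} {G : SimpleGraph V} (h : SpansFew G) : Sparse (gi G) := by
  intro W hW
  have h1 := h W hW
  rw [set_eq, Set.ncard_coe_finset] at h1
  rw [I2_eq_edges]
  omega

theorem spans_of_sparse {V : Type} {G : SimpleGraph V} (h : Sparse (gi G)) : SpansFew G := by
  intro W hW
  have h1 := h W hW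
  rw [I2_eq_edges] at h1
  rw [set_eq, Set.ncard_coe_finset]
  omega

/-- (1) Let `G` be a finite graph whose edges are covered by two forests, or all of whose nonempty
vertex sets `W` span at most `2 |W| - 2` edges. Then every assignment of lists of four colours to
the vertices has a packing (four list colourings which pairwise differ at every vertex), and every
`4`-fold cover of `G` has a packing.
(2) For every class `P` of graphs which contains all bipartite graphs with a straight-line drawing
in the plane and only contains graphs as in (1), the maximum of the list packing number and the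
maximum of the correspondence packing number over the finite graphs of the class are both `4`. -/
theorem result :
    (∀ (V : Type) [Finite V] (G : SimpleGraph V), TwoForests G ∨ SpansFew G →
      ListPackable G 4 ∧ ∀ C : Cover G 4, C.HasPacking) ∧
    ∀ P : (V : Type) → SimpleGraph V → Prop,
      (∀ (V : Type) [Finite V] (G : SimpleGraph V), HasStraightLineDrawing G → G.Colorable 2 →
        P V G) →
      (∀ (V : Type) [Finite V] (G : SimpleGraph V), P V G → TwoForests G ∨ SpansFew G) →
      IsGreatest {k : ℕ | ∃ (V : Type) (_ : Finite V) (G : SimpleGraph V),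
        P V G ∧ listPackingNumber G = k} 4 ∧
      IsGreatest {k : ℕ | ∃ (V : Type) (_ : Finite V) (G : SimpleGraph V),
        P V G ∧ corrPackingNumber G = k} 4 := by
  have up : ∀ (V : Type) [Finite V] (G : SimpleGraph V), TwoForests G ∨ SpansFew G →
      ListPackable G 4 ∧ ∀ C : Cover G 4, C.HasPacking := by
    intro V _ G hG
    have hsp : Sparse (gi G) := hG.elim sparse_of_forests sparse_of_spans
    exact ⟨listPackable_of_sparse G hsp, corr_of_sparse G hsp⟩
  refine ⟨up, fun P h1 h2 => ⟨⟨?_, ?_⟩, ⟨?_, ?_⟩⟩⟩
  · exact ⟨Fin 52, inferInstance, ExB.G, h1 _ _ ExB.drawing ExB.bipartite, ExB.four⟩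
  · rintro k ⟨V, _, G, hP, rfl⟩
    exact listPackingNumber_le (by norm_num) (up V G (h2 V G hP)).1
  · exact ⟨Fin 4, inferInstance, C4.G, h1 _ _ C4.drawing C4.bipartite, C4.corr_eq⟩
  · rintro k ⟨V, _, G, hP, rfl⟩
    exact corrPackingNumber_le (by norm_num) (up V G (h2 V G hP)).2

end Pool.Agent.Results.MP_e21097_co.ArboricityTwo
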